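import Mathlib

namespace Pool.Agent.H.MP_8d2225_pr

open Finset Matrix

section defs
variable {Ω : Type} [Fintype Ω] [DecidableEq Ω]

/-- worst-case total variation distance to the uniform law after `t` steps -/
noncomputable def tv (P : Matrix Ω Ω ℝ) (t : ℕ) : ℝ :=
  ⨆ x, (1 / 2) * ∑ y, |(P ^ t) x y - 1 / (Fintype.card Ω : ℝ)|

/-- total variation mixing time -/
noncomputable def tmix (P : Matrix Ω Ω ℝ) (ε : ℝ) : ℕ := sInf {t | tv P t ≤ ε}

/-- worst-case separation from the uniform law after `t` steps -/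
noncomputable def sep (P : Matrix Ω Ω ℝ) (t : ℕ) : ℝ :=
  ⨆ z : Ω × Ω, (1 - (P ^ t) z.1 z.2 / (1 / (Fintype.card Ω : ℝ)))

/-- separation mixing time -/
noncomputable def tsep (P : Matrix Ω Ω ℝ) (ε : ℝ) : ℕ := sInf {t | sep P t ≤ ε}

/-- the largest eigenvalue different from `1` -/
noncomputable def lam2 (P : Matrix Ω Ω ℝ) : ℝ :=
  sSup {l : ℝ | l ≠ 1 ∧ ∃ f : Ω → ℝ, f ≠ 0 ∧ P *ᵥ f = l • f}

/-- relaxation time -/
noncomputable def trel (P : Matrix Ω Ω ℝ) : ℝ := 1 / (1 - lam2 P)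

/-- stay with probability `θ`, otherwise add a uniform element of `S` -/
noncomputable def W [AddCommGroup Ω] (θ : ℝ) (S : Finset Ω) : Matrix Ω Ω ℝ :=
  fun x y => (if x = y then θ else 0) + if y - x ∈ S then (1 - θ) / (S.card : ℝ) else 0

def RB (A : Matrix Ω Ω ℝ) (c : ℝ) : Prop := ∀ x, ∑ y, |A x y| ≤ c

omit [DecidableEq Ω] in
lemma RB.mul {A B : Matrix Ω Ω ℝ} {a b : ℝ} (hA : RB A a) (hB : RB B b) (hb : 0 ≤ b) :
    RB (A * B) (a * b) := by
  intro x
  calc ∑ y, |(A * B) x y| ≤ ∑ y, ∑ z, |A x z| * |B z y| := by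
        refine sum_le_sum fun y _ => ?_
        rw [mul_apply]
        exact (abs_sum_le_sum_abs _ _).trans (by simp [abs_mul])
    _ = ∑ z, |A x z| * ∑ y, |B z y| := by rw [sum_comm]; simp [mul_sum]
    _ ≤ ∑ z, |A x z| * b := sum_le_sum fun z _ => by gcongr; exact hB z
    _ ≤ a * b := by rw [← sum_mul]; gcongr; exact hA x

lemma RB.one : RB (1 : Matrix Ω Ω ℝ) 1 := by
  intro x; simp [one_apply, apply_ite]

lemma RB.pow {A : Matrix Ω Ω ℝ} {a : ℝ} (hA : RB A a) (ha : 0 ≤ a) (t : ℕ) : RB (A ^ t) (a ^ t) := by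
  induction t with
  | zero => simpa using RB.one
  | succ t ih => rw [pow_succ, pow_succ]; exact ih.mul hA ha

omit [DecidableEq Ω] in
lemma RB.add {A B : Matrix Ω Ω ℝ} {a b : ℝ} (hA : RB A a) (hB : RB B b) : RB (A + B) (a + b) := by
  intro x
  refine (sum_le_sum fun y _ => abs_add_le (A x y) (B x y)).trans ?_
  rw [sum_add_distrib]; linarith [hA x, hB x]

omit [DecidableEq Ω] in
lemma RB.smul {A : Matrix Ω Ω ℝ} {a : ℝ} (hA : RB A a) (c : ℝ) : RB (c • A) (|c| * a) := by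
  intro x
  simp only [Matrix.smul_apply, smul_eq_mul, abs_mul, ← mul_sum]
  gcongr; exact hA x

omit [DecidableEq Ω] in
lemma RB.sub {A B : Matrix Ω Ω ℝ} {a b : ℝ} (hA : RB A a) (hB : RB B b) : RB (A - B) (a + b) := by
  have := hA.add (hB.smul (-1))
  simpa [sub_eq_add_neg] using this

lemma pow_le_pow {A B : Matrix Ω Ω ℝ} (h0 : ∀ x y, 0 ≤ A x y) (h : ∀ x y, A x y ≤ B x y) (t : ℕ) :
    ∀ x y, 0 ≤ (A ^ t) x y ∧ (A ^ t) x y ≤ (B ^ t) x y := by
  induction t with
  | zero => intro x y; simp [one_apply]; split_ifs <;> simp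
  | succ t ih =>
    intro x y
    rw [pow_succ, pow_succ, mul_apply, mul_apply]
    exact ⟨sum_nonneg fun z _ => mul_nonneg (ih x z).1 (h0 z y), sum_le_sum fun z _ =>
      mul_le_mul (ih x z).2 (h z y) (h0 z y) ((ih x z).1.trans (ih x z).2)⟩

lemma row_pow {A : Matrix Ω Ω ℝ} {r : ℝ} (h : ∀ x, ∑ y, A x y = r) (t : ℕ) :
    ∀ x, ∑ y, (A ^ t) x y = r ^ t := by
  induction t with
  | zero => intro x; simp [one_apply]
  | succ t ih =>
    intro x
    simp only [pow_succ, mul_apply]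
    rw [sum_comm]; simp [← mul_sum, h, ← sum_mul, ih]

omit [DecidableEq Ω] in
lemma half_ge (a : Ω → ℝ) (h : ∑ y, a y = 0) (p : Ω → Prop) [DecidablePred p] :
    ∑ y with p y, a y ≤ (1 / 2) * ∑ y, |a y| := by
  rw [← sum_filter_add_sum_filter_not univ p] at h ⊢
  have h1 : ∑ y with p y, a y ≤ ∑ y with p y, |a y| := sum_le_sum fun y _ => le_abs_self _
  have h2 : ∑ y with ¬ p y, -a y ≤ ∑ y with ¬ p y, |a y| := sum_le_sum fun y _ => neg_le_abs _
  rw [sum_neg_distrib] at h2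
  linarith

end defs

section abs
variable {G H : Type} [AddCommGroup G] [Fintype G] [DecidableEq G] [AddCommGroup H] [Fintype H]
  [DecidableEq H] (S0 : Finset G)

variable (H) in
def SS : Finset (G × H) := univ.filter fun z => (z.1 ∈ S0 ∧ z.2 ≠ 0) ∨ (z.1 ≠ 0 ∧ z.2 = 0)

lemma sum_SS {M : Type} [CommRing M] (a : G → M) (b : H → M) :
    ∑ z ∈ SS H S0, a z.1 * b z.2 =
      (∑ x ∈ S0, a x) * (∑ y, b y - b 0) + (∑ x, a x - a 0) * b 0 := by
  have e1 : ∑ x ∈ S0, a x = ∑ x, if x ∈ S0 then a x else 0 := by simp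
  have e2 : ∑ y, b y - b 0 = ∑ y, if y ≠ 0 then b y else 0 := by
    rw [← sum_filter, filter_ne', sum_erase_eq_sub (mem_univ _)]
  have e3 : ∑ y, a y - a 0 = ∑ y, if y ≠ 0 then a y else 0 := by
    rw [← sum_filter, filter_ne', sum_erase_eq_sub (mem_univ _)]
  have e4 : b 0 = ∑ y, if y = 0 then b y else 0 := by simp
  rw [e2, e3, e1]
  conv_rhs => rw [e4]
  rw [sum_mul_sum, sum_mul_sum, ← sum_add_distrib, SS, sum_filter, Fintype.sum_prod_type]
  refine sum_congr rfl fun x _ => ?_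
  rw [← sum_add_distrib]
  refine sum_congr rfl fun y _ => ?_
  by_cases h1 : x ∈ S0 <;> by_cases h2 : y = 0 <;> by_cases h3 : x = 0 <;> simp [h1, h2, h3]

lemma card_SS : (Finset.card (SS H S0) : ℝ) = (Finset.card S0 : ℝ) * ((Fintype.card H : ℝ) - 1) + ((Fintype.card G : ℝ) - 1) := by
  simpa using sum_SS (H := H) S0 (fun _ => (1 : ℝ)) fun _ => 1

noncomputable def A1 : Matrix (G × H) (G × H) ℝ :=
  fun x y => if y.1 - x.1 ∈ S0 ∧ y.2 ≠ x.2 then 1 else 0
variable (G H) in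
noncomputable def E : Matrix (G × H) (G × H) ℝ := fun x y => if y.2 = x.2 then 1 / (Fintype.card G : ℝ) else 0
variable (G H) in
noncomputable def U : Matrix (G × H) (G × H) ℝ := fun _ _ => 1 / ((Fintype.card G : ℝ) * (Fintype.card H : ℝ))

lemma g_pos : 0 < (Fintype.card G : ℝ) := by exact_mod_cast Fintype.card_pos
omit [DecidableEq H] in
lemma h_pos : 0 < (Fintype.card H : ℝ) := by exact_mod_cast Fintype.card_pos

lemma cnt (a : G) : ∑ x, (if a - x ∈ S0 then (1 : ℝ) else 0) = (Finset.card S0 : ℝ) := by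
  rw [← (Equiv.subLeft a).symm.sum_comp]; simp
lemma cnt' (a : G) : ∑ x, (if x - a ∈ S0 then (1 : ℝ) else 0) = (Finset.card S0 : ℝ) := by
  rw [← Equiv.sum_comp (Equiv.addRight a)]; simp
omit [AddCommGroup H] in
lemma cntH (b : H) : ∑ y, (if y ≠ b then (1 : ℝ) else 0) = (Fintype.card H : ℝ) - 1 := by
  rw [← sum_filter, filter_ne', sum_erase_eq_sub (mem_univ _)]; simp

lemma W_eq (θ : ℝ) : W θ (SS H S0) = θ • 1 + ((1 - θ) / (Finset.card (SS H S0) : ℝ)) • (A1 S0 + (Fintype.card G : ℝ) • E G H - 1) := by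
  ext ⟨a, b⟩ ⟨c, d⟩
  have := (g_pos (G := G)).ne'
  have hm : ∀ z : G × H, z ∈ SS H S0 ↔ (z.1 ∈ S0 ∧ z.2 ≠ 0) ∨ (z.1 ≠ 0 ∧ z.2 = 0) := by simp [SS]
  simp only [W, hm, A1, E, Matrix.add_apply, Matrix.smul_apply, Matrix.sub_apply,
    one_apply, smul_eq_mul, Prod.mk_sub_mk, Prod.mk.injEq, sub_ne_zero, sub_eq_zero]
  by_cases h1 : c - a ∈ S0 <;> by_cases h2 : d = b <;> by_cases h3 : c = a <;>
    simp [h1, h2, h3, this, eq_comm (a := a), eq_comm (a := b)]

lemma EE : E G H * E G H = E G H := by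
  ext ⟨a, b⟩ ⟨c, d⟩
  have := (g_pos (G := G)).ne'
  by_cases h2 : d = b <;> simp [E, mul_apply, Fintype.sum_prod_type, h2, this]

lemma A1_row (x : G × H) : ∑ y, A1 S0 x y = (Finset.card S0 : ℝ) * ((Fintype.card H : ℝ) - 1) := by
  rw [← cnt' S0 x.1, ← cntH x.2, sum_mul_sum, Fintype.sum_prod_type]
  refine sum_congr rfl fun a _ => sum_congr rfl fun b _ => ?_
  by_cases h1 : a - x.1 ∈ S0 <;> by_cases h2 : b = x.2 <;> simp [A1, h1, h2]

lemma A1_col (y : G × H) : ∑ x, A1 S0 x y = (Finset.card S0 : ℝ) * ((Fintype.card H : ℝ) - 1) := by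
  rw [← cnt S0 y.1, ← cntH y.2, sum_mul_sum, Fintype.sum_prod_type]
  refine sum_congr rfl fun a _ => sum_congr rfl fun b _ => ?_
  by_cases h1 : y.1 - a ∈ S0 <;> by_cases h2 : b = y.2 <;> simp [A1, h1, h2, eq_comm (a := y.2)]

lemma E_row (x : G × H) : ∑ y, E G H x y = 1 := by
  have := (g_pos (G := G)).ne'
  simp [E, Fintype.sum_prod_type, this]

lemma E_col (y : G × H) : ∑ x, E G H x y = 1 := by
  have := (g_pos (G := G)).ne'
  simp [E, Fintype.sum_prod_type, this]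

lemma U_row (x : G × H) : ∑ y, U G H x y = 1 := by
  have := (g_pos (G := G)).ne'
  have := (h_pos (H := H)).ne'
  simp [U]; field_simp

lemma EA : E G H * A1 S0 = (Finset.card S0 : ℝ) • ((Fintype.card H : ℝ) • U G H - E G H) := by
  ext ⟨a, b⟩ ⟨c, d⟩
  have := (g_pos (G := G)).ne'
  have := (h_pos (H := H)).ne'
  have e := cnt S0 c
  by_cases h2 : d = b
  · simp only [E, A1, U, mul_apply, Fintype.sum_prod_type, ite_mul, zero_mul, sum_ite_eq', mem_univ,
      if_true, ne_eq, h2, not_true, and_false, if_false, Matrix.smul_apply, Matrix.sub_apply,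
      smul_eq_mul]
    field_simp; simp
  · simp only [E, A1, U, mul_apply, Fintype.sum_prod_type, ite_mul, zero_mul, sum_ite_eq', mem_univ,
      if_true, ne_eq, h2, not_false_iff, and_true, ← mul_sum, e, Matrix.smul_apply, Matrix.sub_apply, if_false,
      smul_eq_mul]
    field_simp; simp

lemma AE : A1 S0 * E G H = (Finset.card S0 : ℝ) • ((Fintype.card H : ℝ) • U G H - E G H) := by
  ext ⟨a, b⟩ ⟨c, d⟩
  have := (g_pos (G := G)).ne'
  have := (h_pos (H := H)).ne'
  have e := cnt' S0 a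
  by_cases h2 : d = b
  · simp [E, A1, U, mul_apply, Fintype.sum_prod_type, h2]
  · simp only [E, A1, U, mul_apply, Fintype.sum_prod_type, mul_ite, mul_zero, sum_ite_eq, mem_univ,
      if_true, ne_eq, h2, not_false_iff, and_true, ← sum_mul, e, Matrix.smul_apply, Matrix.sub_apply, if_false,
      smul_eq_mul]
    field_simp; simp

lemma UA : U G H * A1 S0 = ((Finset.card S0 : ℝ) * ((Fintype.card H : ℝ) - 1)) • U G H := by
  ext x y
  simp only [U, mul_apply, ← mul_sum, A1_col, Matrix.smul_apply, smul_eq_mul]; ring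

lemma UE : U G H * E G H = U G H := by
  ext x y
  simp only [U, mul_apply, ← mul_sum, E_col, mul_one]

noncomputable def R (θ : ℝ) : Matrix (G × H) (G × H) ℝ := θ • 1 + ((1 - θ) / (Finset.card (SS H S0) : ℝ)) • (A1 S0 - 1)

lemma W_eq' (θ : ℝ) : W θ (SS H S0) = R S0 θ + ((1 - θ) / (Finset.card (SS H S0) : ℝ) * (Fintype.card G : ℝ)) • E G H := by
  rw [W_eq, R]; module

lemma ER (θ : ℝ) : E G H * R S0 θ =
    (θ - (1 - θ) / (Finset.card (SS H S0) : ℝ) * (1 + (Finset.card S0 : ℝ))) • E G H + ((1 - θ) / (Finset.card (SS H S0) : ℝ) * ((Finset.card S0 : ℝ) * (Fintype.card H : ℝ))) • U G H := by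
  simp only [R, mul_add, mul_smul_comm, mul_sub, EA, mul_one]; module

lemma RE (θ : ℝ) : R S0 θ * E G H = E G H * R S0 θ := by
  simp only [R, mul_add, add_mul, mul_smul_comm, smul_mul_assoc, mul_sub, sub_mul, EA, AE, mul_one,
    one_mul]

lemma UR (θ : ℝ) : U G H * R S0 θ = (θ + (1 - θ) / (Finset.card (SS H S0) : ℝ) * ((Finset.card S0 : ℝ) * ((Fintype.card H : ℝ) - 1) - 1)) • U G H := by
  simp only [R, mul_add, mul_smul_comm, mul_sub, UA, mul_one]; module

lemma E_pow {X : Matrix (G × H) (G × H) ℝ} {b r : ℝ} (h1 : E G H * X = b • E G H + (r - b) • U G H)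
    (h2 : U G H * X = r • U G H) (t : ℕ) :
    E G H * X ^ t = b ^ t • E G H + (r ^ t - b ^ t) • U G H := by
  induction t with
  | zero => simp
  | succ t ih =>
    rw [pow_succ, ← mul_assoc, ih]
    simp only [add_mul, smul_mul_assoc, h1, h2, pow_succ]; module

lemma decomp (θ : ℝ) (hσ : (Finset.card (SS H S0) : ℝ) ≠ 0) (t : ℕ) : W θ (SS H S0) ^ t =
    (1 - E G H) * R S0 θ ^ t + (θ + (1 - θ) / (Finset.card (SS H S0) : ℝ) * ((Fintype.card G : ℝ) - 1 - (Finset.card S0 : ℝ))) ^ t • (E G H - U G H) + U G H := by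
  have h1 : (1 - E G H) * W θ (SS H S0) ^ t = (1 - E G H) * R S0 θ ^ t := by
    induction t with
    | zero => simp
    | succ t ih =>
      have hc : Commute (R S0 θ) (E G H) := RE S0 θ
      rw [pow_succ, ← mul_assoc, ih, W_eq', mul_add, mul_smul_comm, mul_assoc, mul_assoc,
        (hc.pow_left t).eq, ← mul_assoc (1 - E G H) (E G H), sub_mul 1 (E G H) (E G H), EE, ← pow_succ]
      simp
  have e := card_SS (H := H) S0
  have h2 := E_pow (X := W θ (SS H S0)) (b := θ + (1 - θ) / (Finset.card (SS H S0) : ℝ) * ((Fintype.card G : ℝ) - 1 - (Finset.card S0 : ℝ))) (r := 1) ?_ ?_ t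
  · rw [← h1, sub_mul, h2]; simp only [one_mul, one_pow]; module
  · rw [W_eq', mul_add, mul_smul_comm, ER, EE]
    have : 1 - (θ + (1 - θ) / (Finset.card (SS H S0) : ℝ) * ((Fintype.card G : ℝ) - 1 - (Finset.card S0 : ℝ))) = (1 - θ) / (Finset.card (SS H S0) : ℝ) * ((Finset.card S0 : ℝ) * (Fintype.card H : ℝ)) := by
      field_simp; rw [e]; ring
    rw [this]; module
  · rw [W_eq', mul_add, mul_smul_comm, UR, UE, ← add_smul]
    congr 1
    field_simp; rw [e]; ring

lemma A1_nonneg (x y : G × H) : 0 ≤ A1 S0 x y := by unfold A1; split_ifs <;> simp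
lemma E_nonneg (x y : G × H) : 0 ≤ E G H x y := by unfold E; split_ifs <;> simp
lemma U_nonneg (x y : G × H) : 0 ≤ U G H x y := by unfold U; positivity

lemma upper {θ : ℝ} (h0 : 0 ≤ θ) (h1 : θ ≤ 1) (hσ : 0 < (Finset.card (SS H S0) : ℝ)) (t : ℕ) (x : G × H) :
    (1 / 2) * ∑ y, |(W θ (SS H S0) ^ t) x y - 1 / (Fintype.card (G × H) : ℝ)| ≤
      (1 - (1 - θ) / (Finset.card (SS H S0) : ℝ) * ((Fintype.card G : ℝ) - 2)) ^ t + |θ + (1 - θ) / (Finset.card (SS H S0) : ℝ) * ((Fintype.card G : ℝ) - 1 - (Finset.card S0 : ℝ))| ^ t := by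
  have e := card_SS (H := H) S0
  have rE : RB (E G H) 1 := fun x => by simp [abs_of_nonneg (E_nonneg _ _), E_row]
  have rU : RB (U G H) 1 := fun x => by simp [abs_of_nonneg (U_nonneg _ _), U_row]
  have rA : RB (A1 (H := H) S0) ((Finset.card S0 : ℝ) * ((Fintype.card H : ℝ) - 1)) := fun x => by
    simp [abs_of_nonneg (A1_nonneg S0 _ _), A1_row]
  have hk : 0 ≤ (1 - θ) / (Finset.card (SS H S0) : ℝ) := div_nonneg (by linarith) hσ.le
  have rR := (RB.one.smul θ).add ((rA.sub RB.one).smul ((1 - θ) / (Finset.card (SS H S0) : ℝ)))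
  have e2 : |θ| * 1 + |(1 - θ) / (Finset.card (SS H S0) : ℝ)| * ((Finset.card S0 : ℝ) * ((Fintype.card H : ℝ) - 1) + 1) = 1 - (1 - θ) / (Finset.card (SS H S0) : ℝ) * ((Fintype.card G : ℝ) - 2) := by
    rw [abs_of_nonneg h0, abs_of_nonneg hk]; field_simp; rw [e]; ring
  have hpos : 0 ≤ 1 - (1 - θ) / (Finset.card (SS H S0) : ℝ) * ((Fintype.card G : ℝ) - 2) := by
    rw [← e2]
    have : (1 : ℝ) ≤ (Fintype.card H : ℝ) := by exact_mod_cast Fintype.card_pos
    have : 0 ≤ (Finset.card S0 : ℝ) * ((Fintype.card H : ℝ) - 1) := mul_nonneg (by positivity) (by linarith)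
    positivity
  rw [e2] at rR
  have := ((RB.one.sub rE).mul (rR.pow hpos t) (by positivity)).add
    ((rE.sub rU).smul ((θ + (1 - θ) / (Finset.card (SS H S0) : ℝ) * ((Fintype.card G : ℝ) - 1 - (Finset.card S0 : ℝ))) ^ t)) x
  rw [abs_pow] at this
  have e3 : ∀ y, (W θ (SS H S0) ^ t) x y - 1 / (Fintype.card (G × H) : ℝ) =
      ((1 - E G H) * R S0 θ ^ t + (θ + (1 - θ) / (Finset.card (SS H S0) : ℝ) * ((Fintype.card G : ℝ) - 1 - (Finset.card S0 : ℝ))) ^ t • (E G H - U G H) :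
        Matrix (G × H) (G × H) ℝ) x y := by
    intro y
    rw [decomp S0 θ hσ.ne' t, Matrix.add_apply _ (U G H)]
    simp [U]
  simp only [e3]
  unfold R
  linarith

lemma sep_upper (hσ : 1 ≤ (Finset.card (SS H S0) : ℝ)) (hs : 1 + (Finset.card S0 : ℝ) ≤ (Finset.card (SS H S0) : ℝ)) (t : ℕ) (x y : G × H) :
    1 - (W (1 / 2) (SS H S0) ^ t) x y / (1 / (Fintype.card (G × H) : ℝ)) ≤
      (1 - (1 - 1 / 2) / (Finset.card (SS H S0) : ℝ) * (Fintype.card G : ℝ)) ^ t + (1 / 2 + (1 - 1 / 2) / (Finset.card (SS H S0) : ℝ) * ((Fintype.card G : ℝ) - 1 - (Finset.card S0 : ℝ))) ^ t := by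
  have e := card_SS (H := H) S0
  have hσ0 : 0 < (Finset.card (SS H S0) : ℝ) := by linarith
  have hg := g_pos (G := G)
  have hh := h_pos (H := H)
  have hR : ∀ x y, 0 ≤ R (H := H) S0 (1 / 2) x y := by
    intro x y
    have := A1_nonneg S0 x y
    have h3 : (1 - 1 / 2) / (Finset.card (SS H S0) : ℝ) ≤ 1 / 2 := by rw [div_le_iff₀ hσ0]; linarith
    have h4 : 0 ≤ (1 - 1 / 2) / (Finset.card (SS H S0) : ℝ) := by positivity
    simp only [R, Matrix.add_apply, Matrix.smul_apply, Matrix.sub_apply, one_apply, smul_eq_mul]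
    split_ifs <;> nlinarith
  have h2 := E_pow (X := R (H := H) S0 (1 / 2)) (b := 1 / 2 - (1 - 1 / 2) / (Finset.card (SS H S0) : ℝ) * (1 + (Finset.card S0 : ℝ)))
    (r := 1 - (1 - 1 / 2) / (Finset.card (SS H S0) : ℝ) * (Fintype.card G : ℝ)) ?_ ?_ t
  · rw [decomp S0 _ hσ0.ne' t, sub_mul, h2]
    set b := 1 / 2 - (1 - 1 / 2) / (Finset.card (SS H S0) : ℝ) * (1 + (Finset.card S0 : ℝ)) with hb
    set β := 1 / 2 + (1 - 1 / 2) / (Finset.card (SS H S0) : ℝ) * ((Fintype.card G : ℝ) - 1 - (Finset.card S0 : ℝ)) with hβ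
    set r := 1 - (1 - 1 / 2) / (Finset.card (SS H S0) : ℝ) * (Fintype.card G : ℝ)
    have hb0 : 0 ≤ b := by
      have : (1 - 1 / 2) / (Finset.card (SS H S0) : ℝ) * (1 + (Finset.card S0 : ℝ)) ≤ 1 / 2 := by
        rw [div_mul_eq_mul_div, div_le_iff₀ hσ0]; linarith
      linarith
    have hbβ : b ≤ β := by
      have : 0 ≤ (1 - 1 / 2) / (Finset.card (SS H S0) : ℝ) * (Fintype.card G : ℝ) := by positivity
      rw [hb, hβ]; linarith
    have p1 : b ^ t ≤ β ^ t := by gcongr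
    have p2 : 0 ≤ b ^ t := by positivity
    have p3 := (pow_le_pow hR (fun _ _ => le_rfl) t x y).1
    have p4 := E_nonneg x y
    have p5 : 0 ≤ (β ^ t - b ^ t) * E G H x y := mul_nonneg (by linarith) p4
    simp only [one_mul, Matrix.add_apply, Matrix.smul_apply, Matrix.sub_apply, smul_eq_mul, U,
      Fintype.card_prod, Nat.cast_mul]
    have hu : 0 < 1 / ((Fintype.card G : ℝ) * (Fintype.card H : ℝ)) := by positivity
    set u := 1 / ((Fintype.card G : ℝ) * (Fintype.card H : ℝ))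
    rw [sub_le_comm, le_div_iff₀ hu]
    nlinarith
  · rw [ER]; congr 2
    field_simp; rw [e]; ring
  · rw [UR]; congr 1
    field_simp; rw [e]; ring

lemma W_row (θ : ℝ) (hσ : (Finset.card (SS H S0) : ℝ) ≠ 0) (x : G × H) : ∑ y, W θ (SS H S0) x y = 1 := by
  have e := card_SS (H := H) S0
  simp only [W_eq, Matrix.add_apply, Matrix.smul_apply, Matrix.sub_apply, smul_eq_mul,
    sum_add_distrib, ← mul_sum, sum_sub_distrib, A1_row, E_row, one_apply, sum_ite_eq, mem_univ,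
    if_true]
  field_simp; rw [e]; ring

open Pointwise in
lemma lower {θ : ℝ} (h0 : 0 ≤ θ) (h1 : θ ≤ 1) (hσ : 0 < (Finset.card (SS H S0) : ℝ)) (t T : ℕ) (htT : t ≤ T) (x : G × H) :
    (1 - (1 - θ) / (Finset.card (SS H S0) : ℝ) * ((Fintype.card G : ℝ) - 1)) ^ t ≤
      ∑ y with y.1 - x.1 ∈ T • insert 0 S0, (W θ (SS H S0) ^ t) x y := by
  have e := card_SS (H := H) S0
  have hk : 0 ≤ (1 - θ) / (Finset.card (SS H S0) : ℝ) := div_nonneg (by linarith) hσ.le
  have hg := g_pos (G := G)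
  set N : Matrix (G × H) (G × H) ℝ := θ • 1 + ((1 - θ) / (Finset.card (SS H S0) : ℝ)) • A1 S0 with hN
  have N0 : ∀ x y, 0 ≤ N x y := fun x y => by
    have := A1_nonneg S0 x y
    simp only [hN, Matrix.add_apply, Matrix.smul_apply, one_apply, smul_eq_mul]
    split_ifs <;> positivity
  have NW : ∀ x y, N x y ≤ W θ (SS H S0) x y := fun x y => by
    simp only [hN, W_eq, Matrix.add_apply, Matrix.smul_apply, Matrix.sub_apply, smul_eq_mul]
    gcongr
    have : (1 : Matrix (G × H) (G × H) ℝ) x y ≤ (Fintype.card G : ℝ) * E G H x y := by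
      rw [one_apply, E]
      split_ifs with a b b
      · field_simp; rfl
      · exact absurd (by rw [a]) b
      · positivity
      · simp
    linarith
  have Nrow : ∀ x, ∑ y, N x y = 1 - (1 - θ) / (Finset.card (SS H S0) : ℝ) * ((Fintype.card G : ℝ) - 1) := fun x => by
    simp only [hN, Matrix.add_apply, Matrix.smul_apply, smul_eq_mul, sum_add_distrib, ← mul_sum,
      A1_row, one_apply, sum_ite_eq, mem_univ, if_true]
    field_simp; rw [e]; ring
  have supp : ∀ t y, (N ^ t) x y ≠ 0 → y.1 - x.1 ∈ t • insert 0 S0 := by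
    intro t
    induction t with
    | zero =>
      intro y hy
      have : x = y := by by_contra hc; exact hy (by simp [one_apply, hc])
      simp [this]
    | succ t ih =>
      intro y hy
      rw [pow_succ, mul_apply] at hy
      obtain ⟨z, -, hz⟩ := exists_ne_zero_of_sum_ne_zero hy
      have h2 : y.1 - z.1 ∈ insert 0 S0 := by
        by_contra hc
        rw [mem_insert, not_or] at hc
        have : z ≠ y := fun hzy => hc.1 (by simp [hzy])
        exact right_ne_zero_of_mul hz (by simp [hN, one_apply, this, A1, hc.2])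
      rw [succ_nsmul]
      have := Finset.add_mem_add (ih z (left_ne_zero_of_mul hz)) h2
      rwa [show z.1 - x.1 + (y.1 - z.1) = y.1 - x.1 by abel] at this
  rw [← row_pow Nrow t x]
  refine le_trans (le_of_eq (sum_filter_of_ne fun y _ hy => ?_).symm)
    (sum_le_sum fun y _ => (pow_le_pow N0 NW t x y).2)
  exact Finset.nsmul_subset_nsmul_right (mem_insert_self _ _) htT (supp t y hy)

open Pointwise in
lemma small (T : ℕ) (x : G × H) :
    ∑ y : G × H with y.1 - x.1 ∈ T • insert 0 S0, 1 / (Fintype.card (G × H) : ℝ) ≤ ((Finset.card S0 : ℝ) + 1) ^ T / (Fintype.card G : ℝ) := by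
  have hg := g_pos (G := G)
  have hh := h_pos (H := H)
  have h1 : ((T • insert 0 S0 : Finset G).card : ℝ) ≤ ((Finset.card S0 : ℝ) + 1) ^ T := by
    have : (T • insert 0 S0 : Finset G).card ≤ (S0.card + 1) ^ T := Finset.card_nsmul_le.trans
      (Nat.pow_le_pow_left (card_insert_le 0 S0) T)
    exact_mod_cast this
  rw [sum_filter, Fintype.sum_prod_type]
  have := cnt' (T • insert 0 S0) x.1
  have e : ∀ a : G, ∑ _b : H, (if a - x.1 ∈ T • insert 0 S0 then 1 / (Fintype.card (G × H) : ℝ) else 0) =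
      (if a - x.1 ∈ T • insert 0 S0 then (1 : ℝ) else 0) / (Fintype.card G : ℝ) := by
    intro a
    split_ifs
    · simp
    · simp
  simp only [e]
  rw [← sum_div, this]
  gcongr

lemma eigen {θ c : ℝ} (h1 : θ ≤ 1) (hσ : 0 < (Finset.card (SS H S0) : ℝ)) (hc : ∀ χ : AddChar G ℂ, χ ≠ 0 → ‖∑ x ∈ S0, χ (-x)‖ ≤ (Finset.card S0 : ℝ) / 2)
    (hb1 : (Finset.card S0 : ℝ) + (Fintype.card G : ℝ) ≤ c * (Finset.card (SS H S0) : ℝ)) (hb2 : (Finset.card S0 : ℝ) / 2 * ((Fintype.card H : ℝ) - 1) + 1 ≤ c * (Finset.card (SS H S0) : ℝ)) {l : ℝ} (hl : l ≠ 1) {f : G × H → ℝ}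
    (hf : f ≠ 0) (he : W θ (SS H S0) *ᵥ f = l • f) : l ≤ θ + (1 - θ) * c := by
  obtain ⟨ψ, hψ⟩ : ∃ ψ : AddChar (G × H) ℂ, ∑ x, (f x : ℂ) * ψ x ≠ 0 := by
    by_contra hn
    push Not at hn
    refine hf (funext fun y => ?_)
    have : ∑ ψ : AddChar (G × H) ℂ, (∑ x, (f x : ℂ) * ψ x) * ψ (-y) = 0 := by simp [hn]
    simp only [sum_mul, mul_assoc, ← AddChar.map_add_eq_mul] at this
    rw [sum_comm] at this
    simp only [← mul_sum, AddChar.sum_apply_eq_ite, add_neg_eq_zero] at this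
    simpa using this
  have key : (l : ℂ) = θ + (1 - θ) / (Finset.card (SS H S0) : ℝ) * ∑ z ∈ SS H S0, ψ (-z) := by
    have e1 : ∀ y, ∑ x, (W θ (SS H S0) x y : ℂ) * ψ x =
        ψ y * (θ + (1 - θ) / (Finset.card (SS H S0) : ℝ) * ∑ z ∈ SS H S0, ψ (-z)) := by
      intro y
      rw [← Equiv.sum_comp (Equiv.subLeft y)]
      have : ∀ z, (W θ (SS H S0) (Equiv.subLeft y z) y : ℂ) * ψ (Equiv.subLeft y z) =
          ψ y * ((if z = 0 then (θ : ℂ) else 0) + if z ∈ SS H S0 then (1 - θ) / (Finset.card (SS H S0) : ℝ) * ψ (-z) else 0) := by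
        intro z
        have e0 : ψ (y - z) = ψ y * ψ (-z) := by rw [sub_eq_add_neg, AddChar.map_add_eq_mul]
        simp only [W, Equiv.subLeft_apply, sub_sub_cancel, sub_eq_self, e0]
        split_ifs with a b b
        · subst a; push_cast; simp only [neg_zero, AddChar.map_zero_eq_one]; ring
        · subst a; push_cast; simp only [neg_zero, AddChar.map_zero_eq_one]; ring
        · push_cast; ring
        · simp
      simp only [this, ← mul_sum, sum_add_distrib, sum_ite_eq', mem_univ, if_true, ← sum_filter,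
        filter_mem_eq_inter, univ_inter]
    have e2 : ∑ x, ((W θ (SS H S0) *ᵥ f) x : ℂ) * ψ x = ∑ x, ((l • f) x : ℂ) * ψ x := by rw [he]
    simp only [mulVec, dotProduct, Complex.ofReal_sum, Complex.ofReal_mul, sum_mul, Pi.smul_apply,
      smul_eq_mul] at e2
    rw [sum_comm] at e2
    have e3 : ∀ y, ∑ x, (W θ (SS H S0) x y : ℂ) * f y * ψ x =
        f y * ψ y * (θ + (1 - θ) / (Finset.card (SS H S0) : ℝ) * ∑ z ∈ SS H S0, ψ (-z)) := by
      intro y
      rw [mul_assoc, ← e1, mul_sum]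
      exact sum_congr rfl fun x _ => by ring
    simp only [e3, ← sum_mul, mul_assoc (l : ℂ), ← mul_sum] at e2
    rw [mul_comm] at e2
    exact (mul_right_cancel₀ hψ e2).symm
  set χ : AddChar G ℂ := ψ.compAddMonoidHom (AddMonoidHom.inl G H) with hχ
  set φ : AddChar H ℂ := ψ.compAddMonoidHom (AddMonoidHom.inr G H) with hφ
  have hsp : ∀ z : G × H, ψ z = χ z.1 * φ z.2 := fun z => by
    simp [hχ, hφ, ← AddChar.map_add_eq_mul]
  have hS := sum_SS (H := H) S0 (fun x => χ (-x)) fun y => φ (-y)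
  have n1 : ∑ x, χ (-x) = ∑ x, χ x := Equiv.sum_comp (Equiv.neg G) χ
  have n2 : ∑ x, φ (-x) = ∑ x, φ x := Equiv.sum_comp (Equiv.neg H) φ
  simp only [n1, n2, AddChar.sum_eq_ite, neg_zero, AddChar.map_zero_eq_one, mul_one] at hS
  have hS' : ∑ z ∈ SS H S0, ψ (-z) = ∑ z ∈ SS H S0, χ (-z.1) * φ (-z.2) :=
    sum_congr rfl fun z _ => hsp _
  have hn : ‖∑ z ∈ SS H S0, ψ (-z)‖ ≤ c * (Finset.card (SS H S0) : ℝ) := by
    rw [hS', hS]
    have hg1 : (1 : ℝ) ≤ (Fintype.card G : ℝ) := by exact_mod_cast Fintype.card_pos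
    have hh1 : (1 : ℝ) ≤ (Fintype.card H : ℝ) := by exact_mod_cast Fintype.card_pos
    by_cases a : φ = 0
    · by_cases b : χ = 0
      · exfalso
        apply hl
        have : ψ = 0 := by ext z; rw [hsp, a, b]; simp
        have hσ' : ((SS H S0).card : ℂ) ≠ 0 := by exact_mod_cast hσ.ne'
        simp only [this, AddChar.zero_apply, sum_const, nsmul_eq_mul, mul_one, Complex.ofReal_natCast,
          div_mul_cancel₀ _ hσ', add_sub_cancel] at key
        exact_mod_cast key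
      · rw [if_pos a, if_neg b]
        refine (norm_add_le _ _).trans ?_
        rw [norm_mul, show ((Fintype.card H : ℂ) - 1) = (((Fintype.card H : ℝ) - 1 : ℝ) : ℂ) by push_cast; rfl,
          Complex.norm_real, Real.norm_of_nonneg (by linarith)]
        have := mul_le_mul_of_nonneg_right (hc χ b) (by linarith : 0 ≤ (Fintype.card H : ℝ) - 1)
        simp only [zero_sub, norm_neg, norm_one]
        linarith
    · rw [if_neg a]
      refine (norm_add_le _ _).trans ?_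
      have b1 : ‖∑ x ∈ S0, χ (-x)‖ ≤ (Finset.card S0 : ℝ) := by
        refine (norm_sum_le _ _).trans ?_
        simp [AddChar.norm_apply]
      have b2 : ‖(if χ = 0 then (Fintype.card G : ℂ) else 0) - 1‖ ≤ (Fintype.card G : ℝ) := by
        split_ifs
        · rw [show ((Fintype.card G : ℂ) - 1) = (((Fintype.card G : ℝ) - 1 : ℝ) : ℂ) by push_cast; rfl,
            Complex.norm_real, Real.norm_of_nonneg (by linarith)]
          linarith
        · simpa using hg1
      simp only [zero_sub, mul_neg, mul_one, norm_neg]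
      linarith
  have h2 := congrArg Complex.re key
  rw [show (θ : ℂ) + (1 - θ) / (Finset.card (SS H S0) : ℝ) * ∑ z ∈ SS H S0, ψ (-z) =
    (θ : ℂ) + (((1 - θ) / (Finset.card (SS H S0) : ℝ) : ℝ) : ℂ) * ∑ z ∈ SS H S0, ψ (-z) by push_cast; rfl] at h2
  rw [Complex.add_re, Complex.ofReal_re, Complex.ofReal_re, Complex.re_ofReal_mul] at h2
  have h3 := (Complex.re_le_norm _).trans hn
  have hk : 0 ≤ (1 - θ) / (Finset.card (SS H S0) : ℝ) := div_nonneg (by linarith) hσ.le
  have h4 := mul_le_mul_of_nonneg_left h3 hk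
  rw [h2]
  have : (1 - θ) / (Finset.card (SS H S0) : ℝ) * (c * (Finset.card (SS H S0) : ℝ)) = (1 - θ) * c := by
    rw [mul_comm c, ← mul_assoc, div_mul_cancel₀ _ hσ.ne']
  rw [this] at h4
  exact add_le_add_right h4 θ

end abs

end Pool.Agent.H.MP_8d2225_pr
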