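import Mathlib
import Pool.Agent.H.MP_8d2225_pr.Core

namespace Pool.Agent.H.MP_8d2225_pr

open Finset Matrix

theorem exists_S0 (d p : ℕ) [Fact p.Prime] (hd : 2 ≤ d) (hp : 2 * d + 1 ≤ p) :
    ∃ S0 : Finset (Fin d → ZMod p), (S0.card : ℝ) = (p - 1) * p ∧ (∀ x ∈ S0, -x ∈ S0) ∧
      ∀ χ : AddChar (Fin d → ZMod p) ℂ, χ ≠ 0 → ‖∑ x ∈ S0, χ (-x)‖ ≤ (S0.card : ℝ) / 2 := by
  classical
  set γ : ZMod p → Fin d → ZMod p := fun x i => x ^ (i : ℕ) with hγ
  have inj : Set.InjOn (fun z : ZMod p × ZMod p => z.1 • γ z.2)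
      (((univ.erase 0) ×ˢ univ : Finset (ZMod p × ZMod p)) : Set (ZMod p × ZMod p)) := by
    rintro ⟨a, x⟩ h1 ⟨b, y⟩ - h
    have ha : a ≠ 0 := by simpa using h1
    have e0 := congrFun h ⟨0, by omega⟩
    have e1 := congrFun h ⟨1, by omega⟩
    simp only [hγ, Pi.smul_apply, smul_eq_mul, pow_zero, mul_one, pow_one] at e0 e1
    subst e0
    rw [mul_left_cancel₀ ha e1]
  have hp1 : 1 ≤ p := by omega
  have hcard : (((((univ.erase 0) ×ˢ univ : Finset (ZMod p × ZMod p)).image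
      fun z : ZMod p × ZMod p => z.1 • γ z.2).card : ℕ) : ℝ) = (p - 1) * p := by
    rw [card_image_of_injOn inj, card_product, card_erase_of_mem (mem_univ _), card_univ, ZMod.card]
    push_cast [hp1]; ring
  refine ⟨_, hcard, ?_, fun χ hχ => ?_⟩
  · intro x hx
    obtain ⟨⟨a, y⟩, h1, rfl⟩ := mem_image.1 hx
    exact mem_image.2 ⟨(-a, y), by simpa using h1, by simp⟩
  · rw [hcard, sum_image inj, sum_product_right]
    set c : ZMod p → AddChar (ZMod p) ℂ := fun x => χ.compAddMonoidHom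
      (LinearMap.toSpanSingleton (ZMod p) _ (γ x)).toAddMonoidHom with hc
    have hca : ∀ x a, c x a = χ (a • γ x) := fun x a => rfl
    have e : ∀ x, ∑ a ∈ univ.erase (0 : ZMod p), χ (-(a • γ x)) = (if c x = 0 then (p : ℂ) else 0) - 1 := by
      intro x
      rw [sum_erase_eq_sub (mem_univ _)]
      have := AddChar.sum_eq_ite (c x)
      rw [ZMod.card, ← Equiv.sum_comp (Equiv.neg (ZMod p))] at this
      rw [← this]
      simp [hca]
    simp only [e]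
    rw [sum_sub_distrib, ← sum_filter, sum_const, sum_const, card_univ, ZMod.card]
    have hN : #{x | c x = 0} < d := by
      by_contra hn
      obtain ⟨v, hv⟩ : ∃ v : Fin d ↪ ZMod p, ∀ i, c (v i) = 0 := by
        obtain ⟨t, ht, htc⟩ := exists_subset_card_eq (not_lt.1 hn)
        refine ⟨((t.equivFinOfCardEq htc).symm.toEmbedding).trans (Function.Embedding.subtype _),
          fun i => (mem_filter.1 (ht ((t.equivFinOfCardEq htc).symm i).2)).2⟩
      have hu : IsUnit (vandermonde v) := by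
        rw [isUnit_iff_isUnit_det, isUnit_iff_ne_zero, det_vandermonde_ne_zero_iff]
        exact v.injective
      refine hχ (DFunLike.ext _ _ fun w => ?_)
      obtain ⟨u, rfl⟩ := vecMul_surjective_iff_isUnit.2 hu w
      have : u ᵥ* vandermonde v = ∑ j, u j • γ (v j) := by
        funext i; simp [vecMul, dotProduct, hγ, vandermonde]
      simp only [this]
      refine Finset.sum_induction _ (fun w => χ w = (0 : AddChar _ ℂ) w) (fun a b ha hb => ?_) (by simp)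
        fun j _ => ?_
      · simp only [AddChar.zero_apply] at ha hb ⊢
        rw [AddChar.map_add_eq_mul, ha, hb, one_mul]
      · rw [← hca, hv]; simp
    set N := #{x | c x = 0}
    have : N • (p : ℂ) - p • (1 : ℂ) = (((N - 1) * p : ℝ) : ℂ) := by simp; ring
    rw [this, Complex.norm_real, Real.norm_eq_abs, abs_le]
    have h1 : (N : ℝ) + 1 ≤ d := by exact_mod_cast hN
    have h2 : 2 * (d : ℝ) + 1 ≤ p := by exact_mod_cast hp
    have h3 : (0 : ℝ) ≤ N := N.cast_nonneg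
    constructor <;> nlinarith

structure Good {Γ : Type} [AddCommGroup Γ] [Fintype Γ] [DecidableEq Γ] (L T : ℕ) (S : Finset Γ) :
    Prop where
  card : L ≤ Fintype.card Γ
  symm : ∀ x ∈ S, -x ∈ S
  zero : 0 ∉ S
  ne : S.Nonempty
  gen : AddSubgroup.closure (S : Set Γ) = ⊤
  row : ∀ θ x, ∑ y, W θ S x y = 1
  upper : ∀ θ : ℝ, 0 ≤ θ → θ ≤ 1 → ∀ t x,
    (1 / 2) * ∑ y, |(W θ S ^ t) x y - 1 / (Fintype.card Γ : ℝ)| ≤
      (1 - (1 - θ) / (11 * L)) ^ t + (θ + (1 - θ) / (9 * L)) ^ t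
  lower : ∀ x, ∃ A : Finset Γ, ∑ _y ∈ A, 1 / (Fintype.card Γ : ℝ) ≤ 1 / 100 ∧
    ∀ θ : ℝ, 0 ≤ θ → θ ≤ 1 → ∀ t ≤ T, (1 - (1 - θ) / (9 * L)) ^ t ≤ ∑ y ∈ A, (W θ S ^ t) x y
  eig : ∀ θ : ℝ, θ ≤ 1 → ∀ l : ℝ, l ≠ 1 → ∀ f, f ≠ 0 → W θ S *ᵥ f = l • f → l ≤ θ + (1 - θ) * (3 / 5)
  sep : ∀ t x y, 1 - (W (1 / 2) S ^ t) x y / (1 / (Fintype.card Γ : ℝ)) ≤
    (1 - (1 - 1 / 2) / (11 * L)) ^ t + (1 / 2 + (1 - 1 / 2) / (9 * L)) ^ t

theorem pack_abs {G H : Type} [AddCommGroup G] [Fintype G] [DecidableEq G] [AddCommGroup H]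
    [Fintype H] [DecidableEq H] (S0 : Finset G) (L T p : ℕ) (hL : 2 ≤ L) (hp : 10 ≤ p)
    (hs : (S0.card : ℝ) = (p - 1) * p) (hsym : ∀ x ∈ S0, -x ∈ S0)
    (hχ : ∀ χ : AddChar G ℂ, χ ≠ 0 → ‖∑ x ∈ S0, χ (-x)‖ ≤ (S0.card : ℝ) / 2)
    (hg : (Fintype.card G : ℝ) = p ^ 2 * p ^ (2 * T))
    (hh : (Fintype.card H : ℝ) = 10 * L * p ^ (2 * T) + 1) : Good L T (SS H S0) := by
  have hσ := card_SS (H := H) S0
  have hp10 : (10 : ℝ) ≤ p := by exact_mod_cast hp
  have hL2 : (2 : ℝ) ≤ L := by exact_mod_cast hL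
  have hq : (1 : ℝ) ≤ p ^ (2 * T) := one_le_pow₀ (by linarith)
  have hsm : ((S0.card : ℝ) + 1) ^ T / (Fintype.card G : ℝ) ≤ 1 / 100 := by
    rw [hg, hs, div_le_iff₀ (by positivity), pow_mul]
    have : ((p - 1) * p + 1 : ℝ) ^ T ≤ (p ^ 2) ^ T := by
      gcongr
      · nlinarith
      · nlinarith
    have h2 : (0 : ℝ) < (p ^ 2) ^ T := by positivity
    have h3 : (100 : ℝ) ≤ p ^ 2 := by nlinarith
    nlinarith
  set q : ℝ := p ^ (2 * T)
  set g : ℝ := (Fintype.card G : ℝ)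
  set σ : ℝ := ((SS H S0).card : ℝ)
  set s : ℝ := (S0.card : ℝ)
  have g100 : 100 ≤ g := by rw [hg]; nlinarith
  have sg : s + 1 ≤ g := by rw [hg, hs]; nlinarith
  have s0 : 0 < s := by rw [hs]; nlinarith
  have σ1 : 9 * L * g ≤ σ := by
    rw [hσ, hh, hs, hg]
    have : 0 ≤ L * q * p * (p - 10) := by
      have : 0 ≤ (p : ℝ) - 10 := by linarith
      positivity
    nlinarith
  have σ2 : σ ≤ 11 * L * (g - 2) := by
    have h1 : σ ≤ 10 * L * g + g := by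
      rw [hσ, hh, hs, hg]
      have : 0 ≤ L * q * p := by positivity
      nlinarith
    nlinarith
  have σ18 : 18 * g ≤ σ := by nlinarith
  have σ0 : 0 < σ := by linarith
  have L0 : (0 : ℝ) < L := by linarith
  have c1 : ∀ θ : ℝ, θ ≤ 1 → (1 - θ) / (11 * L) ≤ (1 - θ) / σ * (g - 2) := fun θ h1 => by
    rw [div_mul_eq_mul_div, div_le_div_iff₀ (by positivity) σ0]
    nlinarith
  have c2 : ∀ θ : ℝ, θ ≤ 1 → (1 - θ) / σ * g ≤ (1 - θ) / (9 * L) := fun θ h1 => by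
    rw [div_mul_eq_mul_div, div_le_div_iff₀ σ0 (by positivity)]
    nlinarith
  have c3 : ∀ θ : ℝ, 0 ≤ θ → θ ≤ 1 → (1 - θ) / (9 * L) ≤ 1 := fun θ h0 h1 => by
    rw [div_le_one (by positivity)]; linarith
  have hm : ∀ z : G × H, z ∈ SS H S0 ↔ (z.1 ∈ S0 ∧ z.2 ≠ 0) ∨ (z.1 ≠ 0 ∧ z.2 = 0) := by simp [SS]
  refine ⟨?_, ?_, ?_, ?_, ?_, fun θ => W_row S0 θ σ0.ne', ?_, ?_, ?_, ?_⟩
  · have : (L : ℝ) ≤ Fintype.card (G × H) := by
      rw [Fintype.card_prod, Nat.cast_mul, hh]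
      change _ ≤ g * _
      have : 0 ≤ L * (q - 1) := mul_nonneg L0.le (by linarith)
      nlinarith
    exact_mod_cast this
  · intro x hx
    rw [hm] at hx ⊢
    rcases hx with ⟨a, b⟩ | ⟨a, b⟩
    · exact Or.inl ⟨hsym _ a, by simpa using b⟩
    · exact Or.inr ⟨by simpa using a, by simpa using b⟩
  · simp [hm]
  · exact card_pos.1 (Nat.cast_pos.1 σ0)
  · rw [eq_top_iff]
    have a1 : ∀ a : G, (a, (0 : H)) ∈ AddSubgroup.closure (SS H S0 : Set (G × H)) := fun a => by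
      by_cases h : a = 0
      · subst h; exact zero_mem _
      · exact AddSubgroup.subset_closure ((hm _).2 (Or.inr ⟨h, rfl⟩))
    obtain ⟨w, hw⟩ : S0.Nonempty := card_pos.1 (Nat.cast_pos.1 s0)
    rintro ⟨a, b⟩ -
    by_cases h : b = 0
    · subst h; exact a1 a
    · have := add_mem (a1 (a - w)) (AddSubgroup.subset_closure ((hm (w, b)).2 (Or.inl ⟨hw, h⟩)))
      simpa using this
  · intro θ h0 h1 t x
    refine (upper S0 h0 h1 σ0 t x).trans ?_
    have hk : 0 ≤ (1 - θ) / σ := div_nonneg (by linarith) σ0.le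
    have b1 := c1 θ h1
    have b2 := c2 θ h1
    have b3 := c3 θ h0 h1
    have b4 : 0 ≤ (1 - θ) / σ * (g - 1 - s) := mul_nonneg hk (by linarith)
    have b5 : (1 - θ) / σ * (g - 1 - s) ≤ (1 - θ) / σ * g := by gcongr; linarith
    have b6 : (1 - θ) / σ * (g - 2) ≤ (1 - θ) / σ * g := by gcongr; linarith
    rw [abs_of_nonneg (by linarith)]
    gcongr <;> linarith
  · intro x
    refine ⟨_, (small S0 T x).trans hsm, fun θ h0 h1 t ht => le_trans ?_ (lower S0 h0 h1 σ0 t T ht x)⟩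
    have hk : 0 ≤ (1 - θ) / σ := div_nonneg (by linarith) σ0.le
    have b2 := c2 θ h1
    have b3 := c3 θ h0 h1
    have b6 : (1 - θ) / σ * (g - 1) ≤ (1 - θ) / σ * g := by gcongr; linarith
    gcongr <;> linarith
  · intro θ h1 l hl f hf he
    refine eigen S0 h1 σ0 hχ ?_ ?_ hl hf he
    · linarith
    · change s / 2 * _ + 1 ≤ 3 / 5 * σ
      linarith
  · intro t x y
    refine (sep_upper S0 (by linarith) (by linarith) t x y).trans ?_
    have hk : 0 ≤ (1 - 1 / 2) / σ := by positivity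
    have b1 := c1 (1 / 2) (by norm_num)
    have b2 := c2 (1 / 2) (by norm_num)
    have b3 := c3 (1 / 2) (by norm_num) (by norm_num)
    have b4 : 0 ≤ (1 - 1 / 2) / σ * (g - 1 - s) := mul_nonneg hk (by linarith)
    have b5 : (1 - 1 / 2) / σ * (g - 1 - s) ≤ (1 - 1 / 2) / σ * g := by gcongr; linarith
    have b6 : (1 - 1 / 2) / σ * (g - 2) ≤ (1 - 1 / 2) / σ * g := by gcongr; linarith
    gcongr <;> linarith

theorem pack (L T : ℕ) (hL : 2 ≤ L) : ∃ (Γ : Type) (_ : AddCommGroup Γ) (_ : Fintype Γ)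
    (_ : DecidableEq Γ) (S : Finset Γ), Good L T S := by
  obtain ⟨p, hp, hpp⟩ := Nat.exists_infinite_primes (2 * (2 * T + 2) + 11)
  have : Fact p.Prime := ⟨hpp⟩
  obtain ⟨S0, hs, hsym, hχ⟩ := exists_S0 (2 * T + 2) p (by omega) (by omega)
  exact ⟨_, _, _, _, _, pack_abs (H := ZMod (10 * L * p ^ (2 * T) + 1)) S0 L T p hL (by omega) hs hsym
    hχ (by simp [ZMod.card]; ring) (by simp [ZMod.card])⟩

end Pool.Agent.H.MP_8d2225_pr
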