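import Mathlib
import Pool.Agent.H.MP_8d2225_pr.Pack

namespace Pool.Agent.H.MP_8d2225_pr

open Finset Matrix Filter Topology

lemma times {d : ℕ → ℝ} {M : ℕ} {b : ℝ} (hM : 2 ≤ M) (hb0 : 0 ≤ b) (hb : b ≤ 5 / 9)
    (lo : ∀ t ≤ 6 * M, (1 - 1 / (9 * M : ℝ)) ^ t - 1 / 100 ≤ d t)
    (up : ∀ t, d t ≤ (1 - 1 / (11 * M : ℝ)) ^ t + b ^ t) :
    6 * M ≤ sInf {t | d t ≤ 1 / 4} ∧
      3 / 2 ≤ ((sInf {t | d t ≤ 1 / 4} : ℕ) : ℝ) / ((sInf {t | d t ≤ 1 - 1 / 4} : ℕ) : ℝ) := by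
  have hM' : (2 : ℝ) ≤ M := by exact_mod_cast hM
  have c1 : 1 / (11 * M : ℝ) ≤ 1 := by rw [div_le_one (by positivity)]; linarith
  have c0 : 0 < 1 / (11 * M : ℝ) := by positivity
  have ne : {t | d t ≤ 1 / 4}.Nonempty := by
    have h1 := tendsto_pow_atTop_nhds_zero_of_lt_one (r := 1 - 1 / (11 * M : ℝ)) (by linarith) (by linarith)
    have h2 := tendsto_pow_atTop_nhds_zero_of_lt_one hb0 (by linarith)
    have h3 := (h1.add h2).eventually_le_const (show (0 : ℝ) + 0 < 1 / 4 by norm_num)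
    obtain ⟨t, ht⟩ := h3.exists
    exact ⟨t, (up t).trans ht⟩
  have a1 : 6 * M ≤ sInf {t | d t ≤ 1 / 4} := by
    by_contra hc
    have h1 : d _ ≤ 1 / 4 := Nat.sInf_mem ne
    set t := sInf {t | d t ≤ 1 / 4}
    have h2 := lo t (by omega)
    have h3 := one_add_mul_le_pow (a := -(1 / (9 * M : ℝ)))
      (by have : 1 / (9 * M : ℝ) ≤ 1 := by rw [div_le_one (by positivity)]; linarith
          linarith) t
    have h4 : (t : ℝ) ≤ 6 * M := by exact_mod_cast (by omega : t ≤ 6 * M)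
    have h5 : (t : ℝ) * (1 / (9 * M)) ≤ 2 / 3 := by
      rw [mul_one_div, div_le_iff₀ (by positivity)]; linarith
    rw [← sub_eq_add_neg] at h3
    linarith
  have m : 4 * M ∈ {t | d t ≤ 1 - 1 / 4} := by
    refine (up _).trans ?_
    have h1 : (1 - 1 / (11 * M : ℝ)) ^ (4 * M) ≤ Real.exp (-(1 / (11 * M : ℝ))) ^ (4 * M) := by
      gcongr
      linarith [Real.add_one_le_exp (-(1 / (11 * M : ℝ)))]
    rw [← Real.exp_nat_mul, show ((4 * M : ℕ) : ℝ) * -(1 / (11 * M : ℝ)) = -(4 / 11) by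
      push_cast; field_simp, Real.exp_neg] at h1
    have h2 : (Real.exp (4 / 11))⁻¹ ≤ (4 / 11 + 1)⁻¹ :=
      inv_anti₀ (by norm_num) (Real.add_one_le_exp _)
    have h3 : b ^ (4 * M) ≤ (5 / 9) ^ 8 :=
      (pow_le_pow_left₀ hb0 hb _).trans (pow_le_pow_of_le_one (by norm_num) (by norm_num) (by omega))
    norm_num at h2 h3 ⊢
    norm_num at h1
    linarith
  have a2 : sInf {t | d t ≤ 1 - 1 / 4} ≤ 4 * M := Nat.sInf_le m
  have a3 : 0 < sInf {t | d t ≤ 1 - 1 / 4} := by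
    by_contra hc
    have h1 : d _ ≤ 1 - 1 / 4 := Nat.sInf_mem ⟨_, m⟩
    rw [show sInf {t | d t ≤ 1 - 1 / 4} = 0 by omega] at h1
    have := lo 0 (by omega)
    simp only [pow_zero] at this
    linarith
  refine ⟨a1, ?_⟩
  have b1 : (6 * M : ℝ) ≤ ((sInf {t | d t ≤ 1 / 4} : ℕ) : ℝ) := by exact_mod_cast a1
  have b2 : ((sInf {t | d t ≤ 1 - 1 / 4} : ℕ) : ℝ) ≤ 4 * M := by exact_mod_cast a2
  rw [le_div_iff₀ (by exact_mod_cast a3)]
  linarith

variable {Γ : Type} [AddCommGroup Γ] [Fintype Γ] [DecidableEq Γ] {L T : ℕ} {S : Finset Γ}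

lemma Good.rowp (h : Good L T S) (θ : ℝ) (t : ℕ) (x : Γ) : ∑ y, (W θ S ^ t) x y = 1 := by
  simpa using row_pow (h.row θ) t x

omit [DecidableEq Γ] in
lemma unif : ∑ _y : Γ, 1 / (Fintype.card Γ : ℝ) = 1 := by
  have : (Fintype.card Γ : ℝ) ≠ 0 := by exact_mod_cast Fintype.card_pos.ne'
  simp [this]

lemma Good.tv_lo (h : Good L T S) {θ : ℝ} (h0 : 0 ≤ θ) (h1 : θ ≤ 1) {t : ℕ} (ht : t ≤ T) :
    (1 - (1 - θ) / (9 * L)) ^ t - 1 / 100 ≤ tv (W θ S) t := by
  obtain ⟨A, hA, hA'⟩ := h.lower 0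
  refine le_trans ?_ (le_ciSup (f := fun x => (1 / 2) * ∑ y, |(W θ S ^ t) x y - 1 / (Fintype.card Γ : ℝ)|)
    (Set.finite_range _).bddAbove 0)
  have := half_ge (fun y => (W θ S ^ t) 0 y - 1 / (Fintype.card Γ : ℝ))
    (by rw [sum_sub_distrib, h.rowp, unif, sub_self]) (· ∈ A)
  rw [filter_mem_eq_inter, univ_inter, sum_sub_distrib] at this
  linarith [hA' θ h0 h1 t ht]

lemma Good.tv_up (h : Good L T S) {θ : ℝ} (h0 : 0 ≤ θ) (h1 : θ ≤ 1) (t : ℕ) :
    tv (W θ S) t ≤ (1 - (1 - θ) / (11 * L)) ^ t + (θ + (1 - θ) / (9 * L)) ^ t :=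
  ciSup_le (h.upper θ h0 h1 t)

lemma Good.sep_lo (h : Good L T S) {t : ℕ} (ht : t ≤ T) :
    (1 - (1 - 1 / 2 : ℝ) / (9 * L)) ^ t - 1 / 100 ≤ MP_8d2225_pr.sep (W (1 / 2) S) t := by
  obtain ⟨A, hA, hA'⟩ := h.lower 0
  have hc : (0 : ℝ) < 1 / (Fintype.card Γ : ℝ) := by
    have : (0 : ℝ) < Fintype.card Γ := by exact_mod_cast Fintype.card_pos
    positivity
  set s := MP_8d2225_pr.sep (W (1 / 2) S) t
  set u := 1 / (Fintype.card Γ : ℝ) with hu
  have h1 : ∀ y, u - (W (1 / 2) S ^ t) 0 y ≤ s * u := fun y => by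
    have := le_ciSup (f := fun z : Γ × Γ => 1 - (W (1 / 2) S ^ t) z.1 z.2 / u)
      (Set.finite_range _).bddAbove (0, y)
    have h2 := mul_le_mul_of_nonneg_right this hc.le
    rwa [sub_mul, div_mul_cancel₀ _ hc.ne', one_mul] at h2
  have h2 := sum_le_sum fun y (_ : y ∈ univ) => h1 y
  rw [sum_sub_distrib, h.rowp, ← mul_sum, hu, unif] at h2
  have h3 := sum_le_sum fun y (_ : y ∈ Aᶜ) => h1 y
  rw [sum_sub_distrib, ← mul_sum] at h3
  have h4 := sum_compl_add_sum A fun _ => u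
  have h5 := sum_compl_add_sum A fun y => (W (1 / 2) S ^ t) 0 y
  rw [h.rowp] at h5
  rw [show ∑ _y : Γ, u = 1 from unif] at h4
  have h6 : 0 ≤ ∑ _y ∈ A, u := sum_nonneg fun _ _ => hc.le
  have h7 := hA' (1 / 2) (by norm_num) (by norm_num) t ht
  nlinarith

lemma Good.lam (h : Good L T S) {θ : ℝ} (h0 : 0 ≤ θ) (h1 : θ ≤ 1) :
    lam2 (W θ S) ≤ θ + (1 - θ) * (3 / 5) :=
  Real.sSup_le (fun l ⟨a, f, b, c⟩ => h.eig θ h1 l a f b c) (by nlinarith)

lemma e2 (a : ℝ) (L : ℕ) : (1 - 1 / 2 : ℝ) / (a * L) = 1 / (a * ((2 * L : ℕ) : ℝ)) := by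
  push_cast
  rw [div_eq_mul_inv _ (a * L), div_eq_mul_inv _ (a * _), mul_inv, mul_inv, mul_inv]; ring

lemma hb2 (hL : 2 ≤ L) : (1 / 2 : ℝ) + (1 - 1 / 2) / (9 * L) ≤ 5 / 9 := by
  have hL' : (2 : ℝ) ≤ L := by exact_mod_cast hL
  have : (1 - 1 / 2 : ℝ) / (9 * L) ≤ 1 / 18 := by rw [div_le_iff₀ (by positivity)]; linarith
  linarith

lemma Good.lazy (h : Good L (12 * L) S) (hL : 2 ≤ L) :
    (L : ℝ) ≤ tmix (W (1 / 2) S) (1 / 4) / trel (W (1 / 2) S) ∧
      3 / 2 ≤ (tmix (W (1 / 2) S) (1 / 4) : ℝ) / tmix (W (1 / 2) S) (1 - 1 / 4) := by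
  obtain ⟨a, b⟩ := times (d := tv (W (1 / 2) S)) (M := 2 * L) (by omega) (by positivity) (hb2 hL)
    (fun t ht => by rw [← e2]; exact h.tv_lo (by norm_num) (by norm_num) (by omega))
    (fun t => by rw [← e2]; exact h.tv_up (by norm_num) (by norm_num) t)
  refine ⟨?_, b⟩
  have a' : (6 * (2 * L) : ℝ) ≤ tmix (W (1 / 2) S) (1 / 4) := by exact_mod_cast a
  have := h.lam (θ := 1 / 2) (by norm_num) (by norm_num)
  rw [trel, div_div_eq_mul_div, div_one]
  have hL0 : (0 : ℝ) ≤ L := L.cast_nonneg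
  nlinarith

lemma Good.lazy_sep (h : Good L (12 * L) S) (hL : 2 ≤ L) :
    3 / 2 ≤ (tsep (W (1 / 2) S) (1 / 4) : ℝ) / tsep (W (1 / 2) S) (1 - 1 / 4) :=
  (times (d := MP_8d2225_pr.sep (W (1 / 2) S)) (M := 2 * L) (by omega) (by positivity) (hb2 hL)
    (fun t ht => by rw [← e2]; exact h.sep_lo (by omega))
    (fun t => by rw [← e2]; exact ciSup_le fun z => h.sep t z.1 z.2)).2

lemma Good.simple (h : Good L (12 * L) S) (hL : 2 ≤ L) :
    (L : ℝ) ≤ tmix (W 0 S) (1 / 4) * (1 - lam2 (W 0 S)) ∧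
      3 / 2 ≤ (tmix (W 0 S) (1 / 4) : ℝ) / tmix (W 0 S) (1 - 1 / 4) ∧
      ∃ t, ∀ x y, 0 < (W 0 S ^ t) x y := by
  have hL' : (2 : ℝ) ≤ L := by exact_mod_cast hL
  have hb : (1 : ℝ) / (9 * L) ≤ 5 / 9 := by rw [div_le_iff₀ (by positivity)]; linarith
  obtain ⟨a, b⟩ := times (d := tv (W 0 S)) (M := L) (b := 1 / (9 * L)) hL (by positivity) hb
    (fun t ht => by simpa using h.tv_lo le_rfl zero_le_one (by omega))
    (fun t => by simpa using h.tv_up le_rfl zero_le_one t)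
  refine ⟨?_, b, ?_⟩
  · have a' : (6 * L : ℝ) ≤ tmix (W 0 S) (1 / 4) := by exact_mod_cast a
    have := h.lam le_rfl zero_le_one
    nlinarith
  · have c1 : 1 / (11 * L : ℝ) ≤ 1 := by rw [div_le_one (by positivity)]; linarith
    have c0 : 0 < 1 / (11 * L : ℝ) := by positivity
    have hc : (0 : ℝ) < 1 / (Fintype.card Γ : ℝ) := by
      have : (0 : ℝ) < Fintype.card Γ := by exact_mod_cast Fintype.card_pos
      positivity
    have h1 := tendsto_pow_atTop_nhds_zero_of_lt_one (r := 1 - 1 / (11 * L : ℝ)) (by linarith) (by linarith)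
    have h2 := tendsto_pow_atTop_nhds_zero_of_lt_one (r := 1 / (9 * L : ℝ)) (by positivity) (by linarith)
    have h3 := (h1.add h2).eventually_lt_const
      (show (0 : ℝ) + 0 < 1 / 2 * (1 / (Fintype.card Γ : ℝ)) by linarith)
    obtain ⟨t, ht⟩ := h3.exists
    refine ⟨t, fun x y => ?_⟩
    have h4 := h.upper 0 le_rfl zero_le_one t x
    have h5 := single_le_sum (f := fun y => |(W 0 S ^ t) x y - 1 / (Fintype.card Γ : ℝ)|)
      (fun _ _ => abs_nonneg _) (mem_univ y)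
    have h6 := neg_abs_le ((W 0 S ^ t) x y - 1 / (Fintype.card Γ : ℝ))
    simp only [sub_zero, zero_add] at h4
    linarith

lemma not_one {a : ℕ → ℝ} (h : ∀ n, 3 / 2 ≤ a n) : ¬ Tendsto a atTop (𝓝 1) := fun ht => by
  have := ge_of_tendsto' ht h
  norm_num at this

lemma to_top {a : ℕ → ℝ} (h : ∀ n : ℕ, ((n + 2 : ℕ) : ℝ) ≤ a n) : Tendsto a atTop atTop :=
  tendsto_atTop_mono h (tendsto_natCast_atTop_atTop.comp (tendsto_add_atTop_nat 2))

/-- the Cayley graph -/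
def cay (h : Good L T S) : SimpleGraph Γ where
  Adj x y := y - x ∈ S
  symm := ⟨fun x y hxy => by simpa using h.symm _ hxy⟩
  loopless := ⟨fun x hx => h.zero (by simpa using hx)⟩

lemma cay_conn (h : Good L T S) : (cay h).Connected := by
  refine ⟨fun x y => ?_⟩
  have : ∀ z ∈ AddSubgroup.closure (S : Set Γ), ∀ x, (cay h).Reachable x (x + z) := by
    intro z hz
    induction hz using AddSubgroup.closure_induction with
    | mem z hz => intro x; exact SimpleGraph.Adj.reachable (by simpa [cay] using hz)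
    | zero => intro x; simp
    | add a b _ _ ha hb => intro x; rw [← add_assoc]; exact (ha x).trans (hb _)
    | neg a _ ha => intro x; simpa using (ha (x + -a)).symm
  simpa using this (y - x) (by rw [h.gen]; trivial) x

lemma cay_trans (h : Good L T S) (x y : Γ) : ∃ φ : cay h ≃g cay h, φ x = y :=
  ⟨⟨Equiv.addRight (y - x), by simp [cay]⟩, by simp⟩

lemma cay_deg (h : Good L T S) (x : Γ) : ((cay h).neighborSet x).ncard = S.card := by
  have : (cay h).neighborSet x = (fun s => x + s) '' (S : Set Γ) := by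
    ext y
    simp only [SimpleGraph.mem_neighborSet, cay, Set.mem_image, mem_coe]
    exact ⟨fun hy => ⟨_, hy, by simp⟩, fun ⟨s, hs, e⟩ => by simpa [← e] using hs⟩
  rw [this, Set.ncard_image_of_injective _ (add_right_injective x), Set.ncard_coe_finset]

open Classical in
/-- walk on a graph: stay with probability `θ`, otherwise move to a uniform neighbour -/
noncomputable def gw {V : Type} (θ : ℝ) (G : SimpleGraph V) : Matrix V V ℝ :=
  fun x y => (if x = y then θ else 0) +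
    if G.Adj x y then (1 - θ) / ((G.neighborSet x).ncard : ℝ) else 0

lemma gw_cay (h : Good L T S) (θ : ℝ) : gw θ (cay h) = W θ S := by
  ext x y
  simp only [gw, W, cay_deg]
  congr

end Pool.Agent.H.MP_8d2225_pr
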